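import Mathlib

/-!
# The colorful Fingerhut problem in Hilbert space

For every red-blue max-sum matching in a real inner product space there is a point `o` with
`‖r i - o‖ + ‖b i - o‖ ≤ √2 ‖r i - b i‖` for all `i`.
-/

open Set Filter Topology

namespace Pool.Agent.Results.MP_be7f3b_co.ColorfulFingerhut

section potentials

variable {n : ℕ} (c : Fin n → Fin n → ℝ)

lemma doubly_le (h : ∀ π : Equiv.Perm (Fin n), ∑ i, c i (π i) ≤ ∑ i, c i i)
    (M : Matrix (Fin n) (Fin n) ℝ) (hM : M ∈ doublyStochastic ℝ (Fin n)) :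
    ∑ i, ∑ j, c i j * M i j ≤ ∑ i, c i i := by
  obtain ⟨w, hw0, hw1, hwM⟩ := exists_eq_sum_perm_of_mem_doublyStochastic hM
  have h1 : ∀ i j, M i j = ∑ σ : Equiv.Perm (Fin n), w σ * (if σ i = j then 1 else 0) := by
    intro i j
    rw [← hwM, Matrix.sum_apply]
    apply Finset.sum_congr rfl
    intro σ _
    simp [Equiv.Perm.permMatrix, PEquiv.toMatrix_apply, Equiv.toPEquiv_apply]
  calc ∑ i, ∑ j, c i j * M i j
      = ∑ i, ∑ j, ∑ σ : Equiv.Perm (Fin n), w σ * (c i j * (if σ i = j then 1 else 0)) := by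
        apply Finset.sum_congr rfl; intro i _
        apply Finset.sum_congr rfl; intro j _
        rw [h1, Finset.mul_sum]
        apply Finset.sum_congr rfl; intro σ _
        ring
    _ = ∑ i, ∑ σ : Equiv.Perm (Fin n), ∑ j, w σ * (c i j * (if σ i = j then 1 else 0)) := by
        apply Finset.sum_congr rfl; intro i _
        rw [Finset.sum_comm]
    _ = ∑ σ : Equiv.Perm (Fin n), ∑ i, ∑ j, w σ * (c i j * (if σ i = j then 1 else 0)) := by
        rw [Finset.sum_comm]
    _ = ∑ σ : Equiv.Perm (Fin n), w σ * ∑ i, c i (σ i) := by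
        apply Finset.sum_congr rfl; intro σ _
        rw [Finset.mul_sum]
        apply Finset.sum_congr rfl; intro i _
        rw [← Finset.mul_sum]
        congr 1
        simp
    _ ≤ ∑ σ : Equiv.Perm (Fin n), w σ * ∑ i, c i i :=
        Finset.sum_le_sum fun σ _ => mul_le_mul_of_nonneg_left (h σ) (hw0 σ)
    _ = ∑ i, c i i := by rw [← Finset.sum_mul, hw1, one_mul]

/-- Closed walks have nonpositive excess. -/
lemma closed_walk (h : ∀ π : Equiv.Perm (Fin n), ∑ i, c i (π i) ≤ ∑ i, c i i)
    (f : ℕ → Fin n) (k : ℕ) :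
    ∑ l ∈ Finset.range k, (c (f l) (f (l + 1)) - c (f l) (f l)) +
      (c (f k) (f 0) - c (f k) (f k)) ≤ 0 := by
  classical
  set N : ℝ := (k : ℝ) + 1 with hN
  have hNpos : 0 < N := by positivity
  set E : Fin n → ℝ := fun i => ∑ l ∈ Finset.range (k + 1), (if f l = i then 1 else 0) with hE
  set X : Matrix (Fin n) (Fin n) ℝ := fun i j =>
    ∑ l ∈ Finset.range k, (if f l = i ∧ f (l + 1) = j then 1 else 0) +
      (if f k = i ∧ f 0 = j then 1 else 0) + (if i = j then N - E i else 0) with hX
  have hEN : ∀ i, E i ≤ N := by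
    intro i
    have : E i ≤ ∑ l ∈ Finset.range (k + 1), (1 : ℝ) := by
      apply Finset.sum_le_sum
      intro l _
      split_ifs <;> norm_num
    simpa [hN] using this
  have hand : ∀ (a b : Fin n) (i j : Fin n), (if a = i ∧ b = j then (1 : ℝ) else 0) =
      (if a = i then 1 else 0) * (if b = j then 1 else 0) := by
    intro a b i j
    by_cases h1 : a = i <;> by_cases h2 : b = j <;> simp [h1, h2]
  have hrow : ∀ i, ∑ j, X i j = N := by
    intro i
    simp only [hX, Finset.sum_add_distrib, hand]
    rw [Finset.sum_comm]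
    simp only [← Finset.mul_sum, Finset.sum_ite_eq, Finset.mem_univ, if_true, mul_one]
    simp only [hE, Finset.sum_range_succ]
    ring
  have hcol : ∀ j, ∑ i, X i j = N := by
    intro j
    simp only [hX, Finset.sum_add_distrib, hand]
    rw [Finset.sum_comm]
    simp only [← Finset.sum_mul, Finset.sum_ite_eq, Finset.sum_ite_eq', Finset.mem_univ, if_true,
      one_mul]
    simp only [hE]
    rw [Finset.sum_range_succ' (fun l => if f l = j then (1 : ℝ) else 0) k]
    ring
  have hM : Matrix.of (fun i j => X i j / N) ∈ doublyStochastic ℝ (Fin n) := by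
    rw [mem_doublyStochastic_iff_sum]
    simp only [Matrix.of_apply]
    refine ⟨fun i j => ?_, fun i => ?_, fun j => ?_⟩
    · apply div_nonneg _ hNpos.le
      simp only [hX]
      have := hEN i
      have a1 : (0 : ℝ) ≤ ∑ l ∈ Finset.range k, (if f l = i ∧ f (l + 1) = j then 1 else 0) := by
        apply Finset.sum_nonneg
        intro l _
        split_ifs <;> norm_num
      have a2 : (0 : ℝ) ≤ (if f k = i ∧ f 0 = j then 1 else 0) := by split_ifs <;> norm_num
      have a3 : (0 : ℝ) ≤ (if i = j then N - E i else 0) := by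
        split_ifs
        · linarith
        · exact le_rfl
      linarith
    · rw [← Finset.sum_div, hrow, div_self hNpos.ne']
    · rw [← Finset.sum_div, hcol, div_self hNpos.ne']
  have hle := doubly_le c h _ hM
  simp only [Matrix.of_apply] at hle
  have hval : ∑ i, ∑ j, c i j * X i j =
      ∑ l ∈ Finset.range k, (c (f l) (f (l + 1)) - c (f l) (f l)) +
      (c (f k) (f 0) - c (f k) (f k)) + N * ∑ i, c i i := by
    have e1 : ∀ i j, c i j * X i j =
        ∑ l ∈ Finset.range k, (if f l = i then (if f (l + 1) = j then c i j else 0) else 0) +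
        (if f k = i then (if f 0 = j then c i j else 0) else 0) +
        (if i = j then c i j * (N - E i) else 0) := by
      intro i j
      simp only [hX, mul_add, Finset.mul_sum]
      congr 1
      · congr 1
        · apply Finset.sum_congr rfl
          intro l _
          by_cases h1 : f l = i <;> by_cases h2 : f (l + 1) = j <;> simp [h1, h2]
        · by_cases h1 : f k = i <;> by_cases h2 : f 0 = j <;> simp [h1, h2]
      · split_ifs <;> ring
    have e2 : ∑ i, ∑ j, ∑ l ∈ Finset.range k,
        (if f l = i then (if f (l + 1) = j then c i j else 0) else 0) =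
        ∑ l ∈ Finset.range k, c (f l) (f (l + 1)) := by
      rw [show (∑ i, ∑ j, ∑ l ∈ Finset.range k,
        (if f l = i then (if f (l + 1) = j then c i j else 0) else 0)) =
        ∑ i, ∑ l ∈ Finset.range k, ∑ j,
        (if f l = i then (if f (l + 1) = j then c i j else 0) else 0) from
          Finset.sum_congr rfl fun i _ => Finset.sum_comm]
      rw [Finset.sum_comm]
      apply Finset.sum_congr rfl
      intro l _
      rw [Finset.sum_eq_single (f l)]
      · simp
      · intro i _ hi
        simp [hi.symm]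
      · simp
    have e3 : ∑ i, ∑ j, (if f k = i then (if f 0 = j then c i j else 0) else 0) =
        c (f k) (f 0) := by
      rw [Finset.sum_eq_single (f k)]
      · simp
      · intro i _ hi
        simp [hi.symm]
      · simp
    have e4 : ∑ i, ∑ j, (if i = j then c i j * (N - E i) else 0) =
        N * ∑ i, c i i - ∑ l ∈ Finset.range (k + 1), c (f l) (f l) := by
      simp only [Finset.sum_ite_eq, Finset.mem_univ, if_true, mul_sub, Finset.sum_sub_distrib]
      rw [Finset.mul_sum]
      congr 1
      · apply Finset.sum_congr rfl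
        intro i _
        ring
      · simp only [hE, Finset.mul_sum]
        rw [Finset.sum_comm]
        apply Finset.sum_congr rfl
        intro l _
        simp
    simp only [e1, Finset.sum_add_distrib]
    rw [e2, e3, e4, Finset.sum_range_succ, Finset.sum_sub_distrib]
    ring
  have hval2 : ∑ i, ∑ j, c i j * (X i j / N) = (∑ i, ∑ j, c i j * X i j) / N := by
    rw [Finset.sum_div]
    apply Finset.sum_congr rfl; intro i _
    rw [Finset.sum_div]
    apply Finset.sum_congr rfl; intro j _
    ring
  rw [hval2, div_le_iff₀ hNpos, hval] at hle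
  linarith

/-- Dual potentials of an optimal assignment. -/
lemma exists_potential (h : ∀ π : Equiv.Perm (Fin n), ∑ i, c i (π i) ≤ ∑ i, c i i) :
    ∃ α β : Fin n → ℝ, (∀ i j, c i j ≤ α i + β j) ∧ ∀ i, α i + β i = c i i := by
  classical
  set S : Fin n → Set ℝ := fun j => {x | ∃ (k : ℕ) (f : ℕ → Fin n), f k = j ∧
    x = ∑ l ∈ Finset.range k, (c (f l) (f (l + 1)) - c (f l) (f l))} with hS
  have hne : ∀ j, (S j).Nonempty := fun j => ⟨0, 0, fun _ => j, rfl, by simp⟩
  have hbdd : ∀ j, BddAbove (S j) := by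
    intro j
    refine ⟨∑ i, |c j j - c j i|, ?_⟩
    rintro x ⟨k, f, hfk, rfl⟩
    have h1 := closed_walk c h f k
    rw [hfk] at h1
    have h2 : |c j j - c j (f 0)| ≤ ∑ i, |c j j - c j i| :=
      Finset.single_le_sum (f := fun i => |c j j - c j i|) (fun i _ => abs_nonneg _)
        (Finset.mem_univ (f 0))
    have h3 := le_abs_self (c j j - c j (f 0))
    linarith
  refine ⟨fun i => c i i - sSup (S i), fun j => sSup (S j), ?_, fun i => by ring⟩
  intro i j
  have key : sSup (S i) ≤ sSup (S j) - (c i j - c i i) := by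
    apply csSup_le (hne i)
    rintro x ⟨k, f, hfk, rfl⟩
    have : ∑ l ∈ Finset.range k, (c (f l) (f (l + 1)) - c (f l) (f l)) + (c i j - c i i) ≤
        sSup (S j) := by
      apply le_csSup (hbdd j)
      refine ⟨k + 1, fun l => if l ≤ k then f l else j, by simp, ?_⟩
      rw [Finset.sum_range_succ]
      congr 1
      · apply Finset.sum_congr rfl
        intro l hl
        have hl' := Finset.mem_range.1 hl
        simp [hl'.le, Nat.succ_le_of_lt hl']
      · simp [hfk]
    linarith
  linarith

end potentials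

section norm

variable {E : Type*} [NormedAddCommGroup E] [InnerProductSpace ℝ E]

/-- First-order behaviour of the norm. -/
lemma norm_descent {u h : E} {κ : ℝ} (hu : 0 < ‖u‖) (hκ : κ * ‖u‖ < inner ℝ u h) :
    ∀ᶠ ε in 𝓝[>] (0 : ℝ), ‖u - ε • h‖ < ‖u‖ - κ * ε := by
  have h1 : ∀ᶠ ε in 𝓝[>] (0 : ℝ), 0 < 2 * (inner ℝ u h - κ * ‖u‖) + ε * (κ ^ 2 - ‖h‖ ^ 2) := by
    apply eventually_nhdsWithin_of_eventually_nhds
    have hc : Continuous fun ε : ℝ => 2 * (inner ℝ u h - κ * ‖u‖) + ε * (κ ^ 2 - ‖h‖ ^ 2) := by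
      fun_prop
    have ht := hc.tendsto 0
    refine ht.eventually (lt_mem_nhds ?_)
    linarith
  have h2 : ∀ᶠ ε in 𝓝[>] (0 : ℝ), 0 < ‖u‖ - κ * ε := by
    apply eventually_nhdsWithin_of_eventually_nhds
    have hc : Continuous fun ε : ℝ => ‖u‖ - κ * ε := by fun_prop
    refine (hc.tendsto 0).eventually (lt_mem_nhds ?_)
    simpa using hu
  have h3 : ∀ᶠ ε in 𝓝[>] (0 : ℝ), 0 < ε := eventually_mem_nhdsWithin
  filter_upwards [h1, h2, h3] with ε e1 e2 e3
  apply lt_of_pow_lt_pow_left₀ 2 e2.le
  have hexp : ‖u - ε • h‖ ^ 2 = ‖u‖ ^ 2 - 2 * (ε * inner ℝ u h) + ε ^ 2 * ‖h‖ ^ 2 := by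
    rw [norm_sub_sq_real, inner_smul_right, norm_smul, Real.norm_eq_abs, abs_of_pos e3]
    ring
  rw [hexp]
  have := mul_pos e3 e1
  nlinarith

/-- The main step, in a finite-dimensional space. -/
lemma exists_center [FiniteDimensional ℝ E] {n : ℕ} (hn : 0 < n) (r b : Fin n → E)
    (α β : Fin n → ℝ) (hαβ : ∀ i j, ‖r i - b j‖ ≤ α i + β j) :
    ∃ (o : E) (c : ℝ), (∀ i, ‖r i - o‖ ≤ √2 * (α i + c)) ∧ ∀ j, ‖b j - o‖ ≤ √2 * (β j - c) := by
  classical
  have : Nonempty (Fin n) := ⟨⟨0, hn⟩⟩
  have h2pos : 0 < √2 := by positivity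
  have h2sq : √2 * √2 = 2 := Real.mul_self_sqrt (by norm_num)
  set A : Fin n → E × ℝ → ℝ := fun i p => ‖r i - p.1‖ - √2 * (α i + p.2) with hA
  set B : Fin n → E × ℝ → ℝ := fun j p => ‖b j - p.1‖ - √2 * (β j - p.2) with hB
  have hAc : ∀ i, Continuous (A i) := by intro i; simp only [hA]; fun_prop
  have hBc : ∀ i, Continuous (B i) := by intro i; simp only [hB]; fun_prop
  set G : E × ℝ → ℝ := fun p => max (Finset.univ.sup' Finset.univ_nonempty (fun i => A i p))
    (Finset.univ.sup' Finset.univ_nonempty (fun j => B j p)) with hG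
  have hGc : Continuous G := by
    apply Continuous.max
    · exact Continuous.finset_sup'_apply _ fun i _ => hAc i
    · exact Continuous.finset_sup'_apply _ fun i _ => hBc i
  have hAG : ∀ i p, A i p ≤ G p := fun i p =>
    le_max_of_le_left (Finset.le_sup' (fun i => A i p) (Finset.mem_univ i))
  have hBG : ∀ i p, B i p ≤ G p := fun i p =>
    le_max_of_le_right (Finset.le_sup' (fun i => B i p) (Finset.mem_univ i))
  have hGex : ∀ p, (∃ i, G p = A i p) ∨ ∃ j, G p = B j p := by
    intro p
    rcases max_choice (Finset.univ.sup' Finset.univ_nonempty (fun i => A i p))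
      (Finset.univ.sup' Finset.univ_nonempty (fun j => B j p)) with h | h
    · left
      obtain ⟨i, _, hi⟩ := Finset.exists_mem_eq_sup' Finset.univ_nonempty (fun i => A i p)
      exact ⟨i, by rw [hG]; simp only; rw [h, hi]⟩
    · right
      obtain ⟨i, _, hi⟩ := Finset.exists_mem_eq_sup' Finset.univ_nonempty (fun j => B j p)
      exact ⟨i, by rw [hG]; simp only; rw [h, hi]⟩
  -- existence of a minimiser
  let i0 : Fin n := ⟨0, hn⟩
  have hbound : Bornology.IsBounded {p : E × ℝ | G p ≤ G (0, 0)} := by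
    set g := G (0, 0) with hg
    set R : ℝ := 2 * |g| + √2 * (|α i0| + |β i0|) + ‖r i0‖ with hR
    rw [isBounded_iff_forall_norm_le]
    refine ⟨2 * R + |g| + |α i0| + |β i0| + ‖r i0‖ + ‖b i0‖, ?_⟩
    rintro ⟨o, c⟩ hp
    have hp' : G (o, c) ≤ g := hp
    have h1 : ‖r i0 - o‖ - √2 * (α i0 + c) ≤ g := (hAG i0 (o, c)).trans hp'
    have h2 : ‖b i0 - o‖ - √2 * (β i0 - c) ≤ g := (hBG i0 (o, c)).trans hp'
    have h3 := norm_nonneg (r i0 - o)
    have h4 := norm_nonneg (b i0 - o)
    have hs1 : (1 : ℝ) ≤ √2 := by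
      rw [show (1 : ℝ) = √1 by simp]
      exact Real.sqrt_le_sqrt (by norm_num)
    have hs2 : √2 ≤ 2 := by nlinarith
    have a1 := le_abs_self g
    have a2 := le_abs_self (α i0)
    have a3 := le_abs_self (β i0)
    have a4 := abs_nonneg g
    have a5 := abs_nonneg (α i0)
    have a6 := abs_nonneg (β i0)
    have a7 := norm_nonneg (r i0)
    have a8 := norm_nonneg (b i0)
    have ho : ‖o‖ ≤ R := by
      have h5 : ‖o‖ ≤ ‖r i0 - o‖ + ‖r i0‖ := by
        calc ‖o‖ = ‖r i0 - (r i0 - o)‖ := by congr 1; abel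
          _ ≤ ‖r i0‖ + ‖r i0 - o‖ := norm_sub_le _ _
          _ = _ := add_comm _ _
      have h6 : ‖r i0 - o‖ ≤ 2 * |g| + √2 * (|α i0| + |β i0|) := by
        have : ‖r i0 - o‖ ≤ 2 * g + √2 * (α i0 + β i0) := by linarith
        have h7 : √2 * (α i0 + β i0) ≤ √2 * (|α i0| + |β i0|) :=
          mul_le_mul_of_nonneg_left (by linarith) h2pos.le
        linarith
      linarith
    have hc : |c| ≤ |g| + |α i0| + |β i0| := by
      have c1 : -(|g| + |α i0| + |β i0|) ≤ c := by
        by_contra hcon
        push Not at hcon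
        have : √2 * (α i0 + c) < √2 * (-|g|) :=
          mul_lt_mul_of_pos_left (by linarith) h2pos
        have : √2 * (-|g|) ≤ 1 * (-|g|) := by nlinarith
        linarith
      have c2 : c ≤ |g| + |α i0| + |β i0| := by
        by_contra hcon
        push Not at hcon
        have : √2 * (β i0 - c) < √2 * (-|g|) :=
          mul_lt_mul_of_pos_left (by linarith) h2pos
        have : √2 * (-|g|) ≤ 1 * (-|g|) := by nlinarith
        linarith
      exact abs_le.2 ⟨c1, c2⟩
    have hR0 : 0 ≤ R := (norm_nonneg o).trans ho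
    rw [Prod.norm_def]
    apply max_le
    · simp only; linarith
    · simp only [Real.norm_eq_abs]; linarith
  have : ProperSpace E := FiniteDimensional.proper_real E
  obtain ⟨⟨o, c⟩, hmin⟩ := hGc.exists_forall_le_of_isBounded (0, 0) hbound
  by_cases hle : G (o, c) ≤ 0
  · refine ⟨o, c, fun i => ?_, fun j => ?_⟩
    · have : ‖r i - o‖ - √2 * (α i + c) ≤ 0 := (hAG i (o, c)).trans hle
      linarith
    · have : ‖b j - o‖ - √2 * (β j - c) ≤ 0 := (hBG j (o, c)).trans hle
      linarith
  exfalso
  push Not at hle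
  -- the descent principle
  have descent : ∀ (h : E) (t : ℝ),
      (∀ i, A i (o, c) = G (o, c) → ∀ᶠ ε in 𝓝[>] (0 : ℝ), A i (o + ε • h, c + ε * t) < G (o, c)) →
      (∀ j, B j (o, c) = G (o, c) → ∀ᶠ ε in 𝓝[>] (0 : ℝ), B j (o + ε • h, c + ε * t) < G (o, c)) →
      False := by
    intro h t h1 h2
    have hcurve : Continuous fun ε : ℝ => (o + ε • h, c + ε * t) := by fun_prop
    have e1 : ∀ i, ∀ᶠ ε in 𝓝[>] (0 : ℝ), A i (o + ε • h, c + ε * t) < G (o, c) := by
      intro i
      by_cases hi : A i (o, c) = G (o, c)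
      · exact h1 i hi
      · have hlt : A i (o, c) < G (o, c) := lt_of_le_of_ne (hAG i _) hi
        apply eventually_nhdsWithin_of_eventually_nhds
        have hc' : Continuous fun ε : ℝ => A i (o + ε • h, c + ε * t) := (hAc i).comp hcurve
        refine (hc'.tendsto 0).eventually (gt_mem_nhds ?_)
        simpa using hlt
    have e2 : ∀ i, ∀ᶠ ε in 𝓝[>] (0 : ℝ), B i (o + ε • h, c + ε * t) < G (o, c) := by
      intro i
      by_cases hi : B i (o, c) = G (o, c)
      · exact h2 i hi
      · have hlt : B i (o, c) < G (o, c) := lt_of_le_of_ne (hBG i _) hi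
        apply eventually_nhdsWithin_of_eventually_nhds
        have hc' : Continuous fun ε : ℝ => B i (o + ε • h, c + ε * t) := (hBc i).comp hcurve
        refine (hc'.tendsto 0).eventually (gt_mem_nhds ?_)
        simpa using hlt
    obtain ⟨ε, hε1, hε2⟩ := ((eventually_all.2 e1).and (eventually_all.2 e2)).exists
    rcases hGex (o + ε • h, c + ε * t) with ⟨i, hi⟩ | ⟨j, hj⟩
    · exact absurd (hmin (o + ε • h, c + ε * t)) (not_le.2 (hi ▸ hε1 i))
    · exact absurd (hmin (o + ε • h, c + ε * t)) (not_le.2 (hj ▸ hε2 j))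
  set g := G (o, c) with hg
  -- both kinds of constraints are active
  have hposmem : ∀ᶠ ε in 𝓝[>] (0 : ℝ), 0 < ε := eventually_mem_nhdsWithin
  have hI : ∃ i, A i (o, c) = g := by
    by_contra hcon
    push Not at hcon
    apply descent 0 (-1)
    · intro i hi; exact absurd hi (hcon i)
    · intro j hj
      filter_upwards [hposmem] with ε hε
      simp only [hB] at hj ⊢
      simp only [smul_zero, add_zero]
      have : 0 < √2 * ε := mul_pos h2pos hε
      linarith
  have hJ : ∃ j, B j (o, c) = g := by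
    by_contra hcon
    push Not at hcon
    apply descent 0 1
    · intro i hi
      filter_upwards [hposmem] with ε hε
      simp only [hA] at hi ⊢
      simp only [smul_zero, add_zero]
      have : 0 < √2 * ε := mul_pos h2pos hε
      linarith
    · intro j hj; exact absurd hj (hcon j)
  -- acute angles
  have hacute : ∀ i j, A i (o, c) = g → B j (o, c) = g → 0 < inner ℝ (r i - o) (b j - o) := by
    intro i j hi hj
    simp only [hA] at hi
    simp only [hB] at hj
    have h1 := hαβ i j
    have h2 : r i - b j = (r i - o) - (b j - o) := by abel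
    rw [h2] at h1
    generalize r i - o = u at *
    generalize b j - o = v at *
    have h3 : √2 * ‖u - v‖ ≤ ‖u‖ + ‖v‖ - 2 * g := by
      have := mul_le_mul_of_nonneg_left h1 h2pos.le
      linarith
    have h4 : 0 ≤ √2 * ‖u - v‖ := by positivity
    have h5 : (√2 * ‖u - v‖) ^ 2 < (‖u‖ + ‖v‖) ^ 2 := by
      have : √2 * ‖u - v‖ < ‖u‖ + ‖v‖ := by linarith
      exact pow_lt_pow_left₀ this h4 two_ne_zero
    have h6 : (√2 * ‖u - v‖) ^ 2 = 2 * ‖u - v‖ ^ 2 := by
      rw [mul_pow, sq √2, h2sq]
    rw [h6, norm_sub_sq_real] at h5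
    nlinarith [sq_nonneg (‖u‖ - ‖v‖)]
  have hupos : ∀ i, A i (o, c) = g → 0 < ‖r i - o‖ := by
    intro i hi
    obtain ⟨j, hj⟩ := hJ
    have := hacute i j hi hj
    apply norm_pos_iff.2
    intro h0
    rw [h0, inner_zero_left] at this
    exact lt_irrefl _ this
  have hvpos : ∀ j, B j (o, c) = g → 0 < ‖b j - o‖ := by
    intro j hj
    obtain ⟨i, hi⟩ := hI
    have := hacute i j hi hj
    apply norm_pos_iff.2
    intro h0
    rw [h0, inner_zero_right] at this
    exact lt_irrefl _ this
  set U : Set E := (fun i => (‖r i - o‖)⁻¹ • (r i - o)) '' {i | A i (o, c) = g} with hU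
  set V : Set E := (fun j => -((‖b j - o‖)⁻¹ • (b j - o))) '' {j | B j (o, c) = g} with hV
  have hUfin : U.Finite := (Set.toFinite _).image _
  have hVfin : V.Finite := (Set.toFinite _).image _
  have hdisj : Disjoint (convexHull ℝ V) (convexHull ℝ U) := by
    rw [Set.disjoint_left]
    intro p hpV hpU
    have k1 : ∀ j, B j (o, c) = g → ∀ x ∈ convexHull ℝ U, 0 < inner ℝ x (b j - o) := by
      intro j hj x hx
      have hconv : Convex ℝ {x : E | 0 < inner ℝ x (b j - o)} := by
        intro x hx y hy a b' ha hb hab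
        simp only [mem_ofPred_eq] at *
        rw [inner_add_left, inner_smul_left, inner_smul_left]
        simp only [conj_trivial]
        rcases ha.eq_or_lt with rfl | ha'
        · have : b' = 1 := by linarith
          rw [this]; linarith
        · have := mul_pos ha' hx
          have := mul_nonneg hb hy.le
          linarith
      refine (convexHull_min ?_ hconv) hx
      rintro _ ⟨i, hi, rfl⟩
      simp only [mem_ofPred_eq]
      rw [inner_smul_left]
      simp only [conj_trivial]
      exact mul_pos (inv_pos.2 (hupos i hi)) (hacute i j hi hj)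
    have hconv2 : Convex ℝ {y : E | inner ℝ p y < 0} := by
      intro x hx y hy a b' ha hb hab
      simp only [mem_ofPred_eq] at *
      rw [inner_add_right, inner_smul_right, inner_smul_right]
      rcases ha.eq_or_lt with rfl | ha'
      · have : b' = 1 := by linarith
        rw [this]; linarith
      · have := mul_neg_of_pos_of_neg ha' hx
        have := mul_nonpos_of_nonneg_of_nonpos hb hy.le
        linarith
    have : inner ℝ p p < 0 := by
      refine (convexHull_min ?_ hconv2) hpV
      rintro _ ⟨j, hj, rfl⟩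
      simp only [mem_ofPred_eq]
      rw [inner_neg_right, inner_smul_right]
      have := mul_pos (inv_pos.2 (hvpos j hj)) (k1 j hj p hpU)
      linarith
    exact absurd this (not_lt.2 real_inner_self_nonneg)
  obtain ⟨f, s', t', hs', hst, ht'⟩ := geometric_hahn_banach_compact_closed
    (convex_convexHull ℝ V) (hVfin.isCompact_convexHull (𝕜 := ℝ)) (convex_convexHull ℝ U)
    (hUfin.isCompact_convexHull (𝕜 := ℝ)).isClosed hdisj
  have : CompleteSpace E := FiniteDimensional.complete ℝ E
  set h : E := (InnerProductSpace.toDual ℝ E).symm f with hh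
  have hf : ∀ x : E, inner ℝ h x = f x := fun x => InnerProductSpace.toDual_symm_apply (𝕜 := ℝ)
  set κ : ℝ := (s' + t') / 2 with hκ
  apply descent h (-κ / √2)
  · intro i hi
    have hin : κ * ‖r i - o‖ < inner ℝ (r i - o) h := by
      have h1 : t' < f ((‖r i - o‖)⁻¹ • (r i - o)) :=
        ht' _ (subset_convexHull ℝ U ⟨i, hi, rfl⟩)
      rw [← hf, inner_smul_right] at h1
      have h2 : κ < (‖r i - o‖)⁻¹ * inner ℝ h (r i - o) := by linarith
      rw [real_inner_comm]
      have h3 := mul_lt_mul_of_pos_right h2 (hupos i hi)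
      have h4 : (‖r i - o‖)⁻¹ * inner ℝ h (r i - o) * ‖r i - o‖ = inner ℝ h (r i - o) := by
        have := (hupos i hi).ne'
        field_simp
      rw [h4] at h3
      exact h3
    filter_upwards [norm_descent (hupos i hi) hin] with ε hε
    simp only [hA] at hi ⊢
    have e1 : r i - (o + ε • h) = (r i - o) - ε • h := by abel
    rw [e1]
    have e2 : √2 * (α i + (c + ε * (-κ / √2))) = √2 * (α i + c) - κ * ε := by
      field_simp
      ring
    rw [e2]
    linarith
  · intro j hj
    have hin : -κ * ‖b j - o‖ < inner ℝ (b j - o) h := by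
      have h1 : f (-((‖b j - o‖)⁻¹ • (b j - o))) < s' :=
        hs' _ (subset_convexHull ℝ V ⟨j, hj, rfl⟩)
      rw [← hf, inner_neg_right, inner_smul_right] at h1
      have h2 : -κ < (‖b j - o‖)⁻¹ * inner ℝ h (b j - o) := by linarith
      rw [real_inner_comm]
      have h3 := mul_lt_mul_of_pos_right h2 (hvpos j hj)
      have h4 : (‖b j - o‖)⁻¹ * inner ℝ h (b j - o) * ‖b j - o‖ = inner ℝ h (b j - o) := by
        have := (hvpos j hj).ne'
        field_simp
      rw [h4] at h3
      exact h3
    filter_upwards [norm_descent (hvpos j hj) hin] with ε hε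
    simp only [hB] at hj ⊢
    have e1 : b j - (o + ε • h) = (b j - o) - ε • h := by abel
    rw [e1]
    have e2 : √2 * (β j - (c + ε * (-κ / √2))) = √2 * (β j - c) + κ * ε := by
      field_simp
      ring
    rw [e2]
    linarith

end norm

/-- **Main result.** In every real inner product space (in particular in `ℓ²` and in every `ℝ^d`),
for every red-blue max-sum matching `r i`, `b i` some point `o` satisfies
`‖r i - o‖ + ‖b i - o‖ ≤ √2 ‖r i - b i‖` for all `i`. -/
theorem result {E : Type*} [NormedAddCommGroup E] [InnerProductSpace ℝ E] (n : ℕ)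
    (r b : Fin n → E)
    (hmax : ∀ π : Equiv.Perm (Fin n), ∑ i, ‖r i - b (π i)‖ ≤ ∑ i, ‖r i - b i‖) :
    ∃ o : E, ∀ i, ‖r i - o‖ + ‖b i - o‖ ≤ √2 * ‖r i - b i‖ := by
  rcases Nat.eq_zero_or_pos n with rfl | hn
  · exact ⟨0, fun i => i.elim0⟩
  obtain ⟨α, β, h1, h2⟩ := exists_potential (fun i j => ‖r i - b j‖) hmax
  set F : Submodule ℝ E := Submodule.span ℝ (range r ∪ range b) with hF
  have hFfin : FiniteDimensional ℝ F :=
    FiniteDimensional.span_of_finite ℝ ((finite_range r).union (finite_range b))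
  have hr : ∀ i, r i ∈ F := fun i => Submodule.subset_span (Or.inl ⟨i, rfl⟩)
  have hb : ∀ i, b i ∈ F := fun i => Submodule.subset_span (Or.inr ⟨i, rfl⟩)
  obtain ⟨o, c, ho1, ho2⟩ := exists_center (E := F) hn (fun i => ⟨r i, hr i⟩)
    (fun i => ⟨b i, hb i⟩) α β (fun i j => by
      have := h1 i j
      simpa using this)
  refine ⟨o, fun i => ?_⟩
  have e1 : ‖r i - o‖ ≤ √2 * (α i + c) := by
    have := ho1 i
    simpa using this
  have e2 : ‖b i - o‖ ≤ √2 * (β i - c) := by
    have := ho2 i
    simpa using this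
  have e3 := h2 i
  calc ‖r i - o‖ + ‖b i - o‖ ≤ √2 * (α i + β i) := by linarith
    _ = √2 * ‖r i - b i‖ := by rw [e3]

end Pool.Agent.Results.MP_be7f3b_co.ColorfulFingerhut
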